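import Mathlib

set_option autoImplicit false

namespace Pool.Agent.Results.MP_ba75bf_co.Yes

open Ideal IsLocalRing

/-- The ideal reached after `n` rounds when A plays `a 0, a 1, …` and B answers with the strategy
`s`, a function of the list of moves of A so far. -/
def play {R : Type} [CommRing R] (s : List R → R) (a : ℕ → R) : ℕ → Ideal R
  | 0 => ⊥
  | n + 1 => play s a n ⊔ span {a n} ⊔ span {s ((List.range (n + 1)).map a)}

/-- B has a winning strategy: against any moves of A there is a round `n` such that in all earlier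
rounds both moves were legal and did not produce `R`, and in round `n` the move of A either is
illegal (the sequence is not a play any more) or produces `R`. -/
def BWins (R : Type) [CommRing R] : Prop :=
  ∃ s : List R → R, ∀ a : ℕ → R, ∃ n,
    (∀ m < n, a m ∉ play s a m ∧ s ((List.range (m + 1)).map a) ∉ play s a m ⊔ span {a m} ∧
      play s a (m + 1) ≠ ⊤) ∧
    (a n ∈ play s a n ∨ play s a n ⊔ span {a n} = ⊤)

variable (A : Type) [CommRing A] [IsLocalRing A] [Algebra ℂ A]

/-- Elements with real residue. -/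
def sub : Subring A where
  carrier := {a | ∃ r : ℝ, a - algebraMap ℂ A r ∈ maximalIdeal A}
  mul_mem' := fun {a b} ⟨r, hr⟩ ⟨s, hs⟩ => ⟨r * s, by
    have := add_mem (mul_mem_left _ a hs) (mul_mem_left _ (algebraMap ℂ A s) hr)
    convert this using 1; rw [Complex.ofReal_mul, map_mul]; ring⟩
  one_mem' := ⟨1, by simp⟩
  add_mem' := fun {a b} ⟨r, hr⟩ ⟨s, hs⟩ => ⟨r + s, by
    convert add_mem hr hs using 1; rw [Complex.ofReal_add, map_add]; ring⟩
  zero_mem' := ⟨0, by simp⟩
  neg_mem' := fun {a} ⟨r, hr⟩ => ⟨-r, by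
    convert neg_mem hr using 1; rw [Complex.ofReal_neg, map_neg]; ring⟩

variable {A}

lemma of_max {a : A} (h : a ∈ maximalIdeal A) : a ∈ sub A := ⟨0, by simpa using h⟩

lemma zero_of {z : ℂ} (h : algebraMap ℂ A z ∈ maximalIdeal A) : z = 0 := by
  by_contra hz
  exact (mem_maximalIdeal _).1 h ((IsUnit.mk0 z hz).map _)

lemma unit_of {a : sub A} (h : (a : A) ∉ maximalIdeal A) : IsUnit a := by
  obtain ⟨r, hr⟩ := a.2
  obtain ⟨b, hb⟩ := (notMem_maximalIdeal.1 h).exists_right_inv
  have h0 : (r : ℂ) ≠ 0 := fun e => h (by simpa [e] using hr)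
  refine IsUnit.of_mul_eq_one ⟨b, r⁻¹, ?_⟩ (Subtype.ext hb)
  have h1 : algebraMap ℂ A r * algebraMap ℂ A ((r⁻¹ : ℝ) : ℂ) = 1 := by
    rw [← map_mul, Complex.ofReal_inv, mul_inv_cancel₀ h0, map_one]
  convert mul_mem_left _ (-b * algebraMap ℂ A ((r⁻¹ : ℝ) : ℂ)) hr using 1
  linear_combination (algebraMap ℂ A ((r⁻¹ : ℝ) : ℂ)) * hb - b * h1

lemma dim_eq : ringKrullDim (sub A) = ringKrullDim A := by
  refine (Order.krullDim_eq_of_orderIso (RelIso.ofSurjective (OrderEmbedding.ofMapLEIff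
    (PrimeSpectrum.comap (sub A).subtype) fun p q => ⟨fun h x hx => ?_, fun h x hx => h hx⟩)
      fun q => ?_)).symm
  · exact h (show (⟨x, of_max (le_maximalIdeal p.2.ne_top hx)⟩ : sub A) ∈ _ from hx)
  have hq : ∀ x ∈ q.asIdeal, (x : A) ∈ maximalIdeal A := fun x hx => by
    by_contra h; exact q.2.ne_top (eq_top_of_isUnit_mem _ hx (unit_of h))
  by_cases h : ∀ y : sub A, (y : A) ∈ maximalIdeal A → y ∈ q.asIdeal
  · exact ⟨⟨maximalIdeal A, inferInstance⟩, PrimeSpectrum.ext (Ideal.ext fun x => ⟨h x, hq x⟩)⟩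
  push Not at h
  obtain ⟨y, y1, y2⟩ := h
  let Q : Ideal A :=
    { carrier := {x | ∃ h : x ∈ sub A, (⟨x, h⟩ : sub A) ∈ q.asIdeal}
      add_mem' := by rintro _ _ ⟨h1, h2⟩ ⟨h3, h4⟩; exact ⟨add_mem h1 h3, add_mem h2 h4⟩
      zero_mem' := ⟨zero_mem _, zero_mem _⟩
      smul_mem' := by
        rintro c x ⟨h1, h2⟩
        refine ⟨of_max (mul_mem_left _ c (hq _ h2)), (q.2.mem_or_mem (y := y) ?_).resolve_right y2⟩
        convert mul_mem_left _ (⟨c * y, of_max (mul_mem_left _ c y1)⟩ : sub A) h2 using 1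
        exact Subtype.ext (by simp; ring) }
  have hQ : ∀ x ∈ Q, x ∈ maximalIdeal A := fun x h => hq _ h.2
  suffices hp : Q.IsPrime from
    ⟨⟨Q, hp⟩, PrimeSpectrum.ext (Ideal.ext fun x => ⟨fun h => h.2, fun h => ⟨x.2, h⟩⟩)⟩
  refine ⟨fun h => (maximalIdeal.isMaximal A).ne_top (top_unique (h ▸ hQ)), fun {a b} hab => ?_⟩
  by_cases ha : a ∈ maximalIdeal A
  · by_cases hb : b ∈ maximalIdeal A
    · exact (q.2.mem_or_mem (x := ⟨a, of_max ha⟩) (y := ⟨b, of_max hb⟩) hab.2).imp
        (fun h => ⟨_, h⟩) fun h => ⟨_, h⟩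
    · exact Or.inl ((Q.mul_unit_mem_iff_mem (notMem_maximalIdeal.1 hb)).1 hab)
  · exact Or.inr ((Q.unit_mul_mem_iff_mem (notMem_maximalIdeal.1 ha)).1 hab)

lemma wins [IsNoetherianRing A] (hA : ∀ a : A, ∃ z : ℂ, a - algebraMap ℂ A z ∈ maximalIdeal A) :
    BWins (sub A) := by
  classical
  let i : A := algebraMap ℂ A Complex.I
  let t : sub A → sub A := fun a =>
    if h : (a : A) ∈ maximalIdeal A then ⟨i * a, of_max (mul_mem_left _ i h)⟩ else 0
  refine ⟨fun l => t (l.getLastD 0), fun a => ?_⟩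
  have hs : ∀ m, ((List.range (m + 1)).map a).getLastD 0 = a m := fun m => by
    simp [List.range_succ]
  simp only [hs]
  set P := play (fun l => t (l.getLastD 0)) a with hP
  have hP1 : ∀ m, P (m + 1) = P m ⊔ span {a m} ⊔ span {t (a m)} := fun m => by
    rw [hP, play, hs]
  let J : ℕ → Ideal A := fun n => Nat.rec ⊥ (fun m I => I ⊔ span {(a m : A)}) n
  have hJ : ∀ m, J (m + 1) = J m ⊔ span {(a m : A)} := fun _ => rfl
  have inv : ∀ n, (∀ m < n, (a m : A) ∈ maximalIdeal A) →
      J n ≤ maximalIdeal A ∧ ∀ x : sub A, x ∈ P n ↔ (x : A) ∈ J n := by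
    intro n
    induction n with
    | zero => exact fun _ => ⟨bot_le, fun x => by simp [hP, play, J]⟩
    | succ n ih =>
      intro h
      obtain ⟨h1, h2⟩ := ih fun m hm => h m (by omega)
      have h3 := h n n.lt_succ_self
      have h4 : (t (a n) : A) = i * a n := by simp only [t, dif_pos h3]
      refine ⟨sup_le h1 ((span_singleton_le_iff_mem _).2 h3), fun x => ?_⟩
      simp only [hP1, hJ, mem_span_singleton_sup, sup_comm _ (span _)]
      constructor
      · rintro ⟨c, _, ⟨d, y, hy, rfl⟩, rfl⟩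
        exact ⟨c * i + d, y, (h2 y).1 hy, by push_cast; rw [h4]; ring⟩
      · rintro ⟨c, y, hy, e⟩
        obtain ⟨z, hz⟩ := hA c
        have e1 : algebraMap ℂ A z = algebraMap ℂ A z.re + algebraMap ℂ A z.im * i := by
          rw [← map_mul, ← map_add, Complex.re_add_im]
        refine ⟨⟨algebraMap ℂ A z.im, z.im, by simp⟩, _, ⟨⟨c - algebraMap ℂ A z.im * i, z.re, ?_⟩,
          ⟨y, of_max (h1 hy)⟩, (h2 _).2 hy, rfl⟩, Subtype.ext ?_⟩
        · convert hz using 1; rw [e1]; ring
        · push_cast; rw [h4, ← e]; ring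
  have ex : ∃ n, ¬ ((a n : A) ∈ maximalIdeal A ∧ a n ∉ P n) := by
    by_contra hn
    push Not at hn
    obtain ⟨n, h⟩ := monotone_stabilizes_iff_noetherian.2 (inferInstance : IsNoetherian A A)
      ⟨J, monotone_nat_of_le_succ fun m => le_sup_left⟩
    refine (hn n).2 (((inv n fun m _ => (hn m).1).2 _).2 ?_)
    have : J n = J (n + 1) := h _ n.le_succ
    rw [this]
    exact mem_sup_right (mem_span_singleton_self _)
  have lt : ∀ m < Nat.find ex, (a m : A) ∈ maximalIdeal A ∧ a m ∉ P m := fun m hm =>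
    not_not.1 (Nat.find_min ex hm)
  refine ⟨Nat.find ex, fun m hm => ⟨(lt m hm).2, fun h => ?_, fun h => ?_⟩, ?_⟩
  · obtain ⟨-, h2⟩ := inv m fun k hk => (lt k (hk.trans hm)).1
    rw [sup_comm, mem_span_singleton_sup] at h
    obtain ⟨c, y, hy, e⟩ := h
    have e' : (c : A) * a m + y = i * a m := by
      have := congrArg Subtype.val e
      simp only [t, dif_pos (lt m hm).1] at this
      exact this
    obtain ⟨r, hr⟩ := c.2
    have hu : i - c ∉ maximalIdeal A := fun h => by
      have : algebraMap ℂ A (Complex.I - r) ∈ maximalIdeal A := by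
        convert add_mem h hr using 1; rw [map_sub]; ring
      simpa using congrArg Complex.im (zero_of this)
    refine (lt m hm).2 ((h2 _).2 (((J m).unit_mul_mem_iff_mem (notMem_maximalIdeal.1 hu)).1 ?_))
    convert (h2 y).1 hy using 1
    linear_combination -e'
  · obtain ⟨h1, h2⟩ := inv (m + 1) fun k hk => (lt k (by omega)).1
    exact (maximalIdeal.isMaximal A).ne_top ((eq_top_iff_one _).2 (h1 ((h2 1).1 (h ▸ trivial))))
  · by_cases h : (a (Nat.find ex) : A) ∈ maximalIdeal A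
    · exact Or.inl (by_contra fun h' => Nat.find_spec ex ⟨h, h'⟩)
    · exact Or.inr (by rw [span_singleton_eq_top.2 (unit_of h), sup_top_eq])

theorem result (n : ℕ) : ∃ (R : Type) (_ : CommRing R), ringKrullDim R = n ∧ BWins R := by
  have hd : ringKrullDim (MvPolynomial (Fin n) ℂ) = n := by
    simp [MvPolynomial.ringKrullDim_of_isNoetherianRing]
  have : FiniteRingKrullDim (MvPolynomial (Fin n) ℂ) :=
    finiteRingKrullDim_iff_ne_bot_and_top.2 (by rw [hd]; exact ⟨by simp, fun h => ENat.coe_ne_top n (WithBot.coe_inj.1 h)⟩)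
  obtain ⟨p, hp, hh⟩ := Ideal.exists_isMaximal_height (R := MvPolynomial (Fin n) ℂ)
  obtain ⟨x, hx⟩ := MvPolynomial.isMaximal_iff_eq_vanishingIdeal_singleton.1 hp
  refine ⟨sub (Localization.AtPrime p), inferInstance, ?_, wins fun a => ?_⟩
  · rw [dim_eq, IsLocalization.AtPrime.ringKrullDim_eq_height p, hh, hd]
  · obtain ⟨f, g, rfl⟩ := IsLocalization.exists_mk'_eq p.primeCompl a
    have h1 : ∀ f, f ∈ p ↔ MvPolynomial.aeval x f = 0 := fun f => by
      rw [hx, MvPolynomial.mem_vanishingIdeal_singleton_iff]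
    have hg : MvPolynomial.aeval x g.1 ≠ 0 := fun h => g.2 ((h1 _).2 h)
    refine ⟨MvPolynomial.aeval x f / MvPolynomial.aeval x g.1, ?_⟩
    generalize hz : MvPolynomial.aeval x f / MvPolynomial.aeval x g.1 = z
    have : IsLocalization.mk' (Localization.AtPrime p) f g - algebraMap ℂ _ z =
        IsLocalization.mk' (Localization.AtPrime p) (f - MvPolynomial.C z * g.1) g := by
      rw [IsLocalization.eq_mk'_iff_mul_eq, sub_mul, IsLocalization.mk'_spec, map_sub, map_mul]
      rfl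
    rw [this, IsLocalization.AtPrime.mk'_mem_maximal_iff _ p, h1]
    rw [map_sub, map_mul, MvPolynomial.aeval_C, ← hz]
    exact sub_eq_zero.2 (div_mul_cancel₀ _ hg).symm

end Pool.Agent.Results.MP_ba75bf_co.Yes
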